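import Mathlib

/-!
# Localizing a Green functor at an element of a non-top level need not be flat

The group is `G = C₂` and the subgroup is trivial. A Mackey functor for `C₂` is given by its values
`top` at `C₂/C₂` and `bot` at `C₂/e`, the restriction `res`, the transfer `tr` and the action `w` of
the generator of `C₂` on `bot`.
-/

set_option autoImplicit false

namespace Pool.Agent.Results.MP_196a0c_al.NotFlat

/-- The Mackey axioms for `C₂`. -/
def MackeyAx {A B : Type} [AddCommGroup A] [AddCommGroup B] (res : A →+ B) (tr : B →+ A)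
    (w : B →+ B) : Prop :=
  (∀ a, w (w a) = a) ∧ (∀ m, w (res m) = res m) ∧ (∀ a, tr (w a) = tr a) ∧
    ∀ a, res (tr a) = a + w a

/-- Commutative Green functors for the group `C₂`. -/
structure Green : Type 1 where
  /-- the ring at the level `C₂/C₂` -/
  top : Type
  /-- the ring at the level `C₂/e` -/
  bot : Type
  [ringTop : CommRing top]
  [ringBot : CommRing bot]
  /-- restriction -/
  res : top →+* bot
  /-- transfer -/
  tr : bot →+ top
  /-- conjugation -/
  w : bot →+* bot
  mackey : MackeyAx res.toAddMonoidHom tr w.toAddMonoidHom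
  frob : ∀ a r, tr (a * res r) = tr a * r

attribute [instance] Green.ringTop Green.ringBot

/-- `(f, g)` commutes with restriction, transfer and conjugation. -/
def Comm {A B A' B' : Type} (res : A → B) (tr : B → A) (w : B → B) (res' : A' → B')
    (tr' : B' → A') (w' : B' → B') (f : A → A') (g : B → B') : Prop :=
  (∀ r, g (res r) = res' (f r)) ∧ (∀ a, f (tr a) = tr' (g a)) ∧ ∀ a, g (w a) = w' (g a)

/-- Maps of Green functors. -/
@[ext] structure Green.Hom (R S : Green) : Type where
  /-- the map at `C₂/C₂` -/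
  top : R.top →+* S.top
  /-- the map at `C₂/e` -/
  bot : R.bot →+* S.bot
  comm : Comm R.res R.tr R.w S.res S.tr S.w top bot

/-- Composition of maps of Green functors. -/
def Green.Hom.comp {R S T : Green} (h : Green.Hom S T) (f : Green.Hom R S) : Green.Hom R T where
  top := h.top.comp f.top
  bot := h.bot.comp f.bot
  comm :=
    ⟨fun r => by simp only [RingHom.comp_apply, f.comm.1, h.comm.1],
      fun a => by simp only [RingHom.comp_apply, f.comm.2.1, h.comm.2.1],
      fun a => by simp only [RingHom.comp_apply, f.comm.2.2, h.comm.2.2]⟩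

/-- The compatibility of the module structures with restriction, transfer and conjugation. -/
def ModAx {U V A B : Type} [CommRing U] [CommRing V] [AddCommGroup A] [AddCommGroup B]
    [Module U A] [Module V B] (res' : U → V) (tr' : V → U) (w' : V → V)
    (res : A → B) (tr : B → A) (w : B → B) : Prop :=
  (∀ (r : U) (m : A), res (r • m) = res' r • res m) ∧
  (∀ (a : V) (x : B), w (a • x) = w' a • w x) ∧
  (∀ (r : U) (x : B), tr (res' r • x) = r • tr x) ∧
  ∀ (a : V) (m : A), tr (a • res m) = tr' a • m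

/-- Modules over a Green functor. -/
structure Mod (R : Green) : Type 1 where
  /-- the module at `C₂/C₂` -/
  top : Type
  /-- the module at `C₂/e` -/
  bot : Type
  [grpTop : AddCommGroup top]
  [grpBot : AddCommGroup bot]
  [modTop : Module R.top top]
  [modBot : Module R.bot bot]
  /-- restriction -/
  res : top →+ bot
  /-- transfer -/
  tr : bot →+ top
  /-- conjugation -/
  w : bot →+ bot
  mackey : MackeyAx res tr w
  compat : ModAx R.res R.tr R.w res tr w

attribute [instance] Mod.grpTop Mod.grpBot Mod.modTop Mod.modBot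

/-- Maps of modules. -/
@[ext] structure Mod.Hom {R : Green} (M N : Mod R) : Type where
  /-- the map at `C₂/C₂` -/
  top : M.top →ₗ[R.top] N.top
  /-- the map at `C₂/e` -/
  bot : M.bot →ₗ[R.bot] N.bot
  comm : Comm M.res M.tr M.w N.res N.tr N.w top bot

/-- `0 → A → B → C → 0` is exact. -/
def SExact {A B C : Type} [Zero C] (i : A → B) (q : B → C) : Prop :=
  Function.Injective i ∧ Function.Exact i q ∧ Function.Surjective q

/-- `0 → N' → N → N'' → 0` is exact. -/
def ShortExact {R : Green} {N' N N'' : Mod R} (i : Mod.Hom N' N) (q : Mod.Hom N N'') : Prop :=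
  SExact i.top q.top ∧ SExact i.bot q.bot

/-- `f` is bilinear over `U`. -/
def Bilin (U : Type) {A B C : Type} [CommRing U] [AddCommGroup A] [AddCommGroup B] [AddCommGroup C]
    [Module U A] [Module U B] [Module U C] (f : A → B → C) : Prop :=
  (∀ a a' b, f (a + a') b = f a b + f a' b) ∧ (∀ a b b', f a (b + b') = f a b + f a b') ∧
  (∀ (r : U) a b, f (r • a) b = r • f a b) ∧ ∀ (r : U) a b, f a (r • b) = r • f a b

/-- The compatibility of a pairing `(f, g)` with restriction, conjugation and transfer. -/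
def PairAx {A B A' B' C D : Type} (res : A → B) (tr : B → A) (w : B → B) (res' : A' → B')
    (tr' : B' → A') (w' : B' → B') (res'' : C → D) (tr'' : D → C) (w'' : D → D)
    (f : A → A' → C) (g : B → B' → D) : Prop :=
  (∀ m n, res'' (f m n) = g (res m) (res' n)) ∧ (∀ a b, w'' (g a b) = g (w a) (w' b)) ∧
  (∀ a n, tr'' (g a (res' n)) = f (tr a) n) ∧ ∀ m b, tr'' (g (res m) b) = f m (tr' b)

/-- `R`-bilinear pairings `M × N → P` of Mackey functors (Dress pairings); they are the same as
maps `M ⊠_R N → P`. -/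
structure Pairing {R : Green} (M N P : Mod R) : Type where
  /-- the pairing at `C₂/C₂` -/
  top : M.top → N.top → P.top
  /-- the pairing at `C₂/e` -/
  bot : M.bot → N.bot → P.bot
  bilin_top : Bilin R.top top
  bilin_bot : Bilin R.bot bot
  compat : PairAx M.res M.tr M.w N.res N.tr N.w P.res P.tr P.w top bot

/-- `h ∘ β = γ` -/
def Factors {R : Green} {M N T P : Mod R} (β : Pairing M N T) (h : Mod.Hom T P)
    (γ : Pairing M N P) : Prop :=
  (∀ m n, h.top (β.top m n) = γ.top m n) ∧ ∀ a b, h.bot (β.bot a b) = γ.bot a b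

/-- `T` with the pairing `β` is the box product `M ⊠_R N`: the pairing is universal. -/
def IsBox {R : Green} {M N T : Mod R} (β : Pairing M N T) : Prop :=
  ∀ (P : Mod R) (γ : Pairing M N P), ∃! h : Mod.Hom T P, Factors β h γ

/-- `h : M ⊠_R N' → M ⊠_R N` is the map induced by `i : N' → N`. -/
def Induced {R : Green} {M N' N T' T : Mod R} (β' : Pairing M N' T') (β : Pairing M N T)
    (i : Mod.Hom N' N) (h : Mod.Hom T' T) : Prop :=
  (∀ m n, h.top (β'.top m n) = β.top m (i.top n)) ∧
    ∀ a b, h.bot (β'.bot a b) = β.bot a (i.bot b)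

/-- `M` is flat: `M ⊠_R (-)` is exact, that is, it sends every short exact sequence to a short exact
sequence. -/
def Flat {R : Green} (M : Mod R) : Prop :=
  ∀ (N' N N'' : Mod R) (i : Mod.Hom N' N) (q : Mod.Hom N N''), ShortExact i q →
    ∀ (T' T T'' : Mod R) (β' : Pairing M N' T') (β : Pairing M N T) (β'' : Pairing M N'' T''),
      IsBox β' → IsBox β → IsBox β'' → ∀ (h : Mod.Hom T' T) (k : Mod.Hom T T''),
        Induced β' β i h → Induced β β'' q k → ShortExact h k

/-- `f : R → S` is the localization of `R` at the element `b` of level `C₂/e`. -/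
def IsLocalizationAt {R S : Green} (b : R.bot) (f : Green.Hom R S) : Prop :=
  IsUnit (f.bot b) ∧ ∀ (T : Green) (g : Green.Hom R T), IsUnit (g.bot b) →
    ∃! h : Green.Hom S T, h.comp f = g

/-- An algebra as a module. -/
def Green.Hom.toMod {R S : Green} (f : Green.Hom R S) : Mod R where
  top := S.top
  bot := S.bot
  modTop := Module.compHom S.top f.top
  modBot := Module.compHom S.bot f.bot
  res := S.res.toAddMonoidHom
  tr := S.tr
  w := S.w.toAddMonoidHom
  mackey := S.mackey
  compat := by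
    refine ⟨fun r m => ?_, fun a x => ?_, fun r x => ?_, fun a m => ?_⟩
    · change S.res (f.top r * m) = f.bot (R.res r) * S.res m
      rw [map_mul, f.comm.1]
    · change S.w (f.bot a * x) = f.bot (R.w a) * S.w x
      rw [map_mul, f.comm.2.2]
    · change S.tr (f.bot (R.res r) * x) = f.top r * S.tr x
      rw [f.comm.1, mul_comm, S.frob, mul_comm]
    · change S.tr (f.bot a * S.res m) = f.top (R.tr a) * m
      rw [S.frob, f.comm.2.1]

/-! ### The example -/

/-- The constant Green functor `ℤ`. -/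
def constZ : Green where
  top := ℤ
  bot := ℤ
  res := RingHom.id ℤ
  tr := AddMonoidHom.mulLeft 2
  w := RingHom.id ℤ
  mackey := ⟨fun _ => rfl, fun _ => rfl, fun _ => rfl, fun a => two_mul a⟩
  frob a r := (mul_assoc 2 a r).symm

/-- `ℤ[1/2]` -/
abbrev Z2 : Type := Localization.Away (2 : ℤ)

/-- `1/2` -/
noncomputable def hf : Z2 := IsLocalization.Away.invSelf (2 : ℤ)

lemma two_hf : (2 : Z2) * hf = 1 := by
  have h := IsLocalization.Away.mul_invSelf (S := Z2) (2 : ℤ)
  rwa [map_ofNat] at h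

/-- The localization of the constant Green functor `ℤ` at the element `2` of level `C₂/e`. -/
noncomputable def locZ : Green where
  top := Z2 × ZMod 2
  bot := Z2
  res := RingHom.fst Z2 (ZMod 2)
  tr := (AddMonoidHom.inl Z2 (ZMod 2)).comp (AddMonoidHom.mulLeft 2)
  w := RingHom.id Z2
  mackey := ⟨fun _ => rfl, fun _ => rfl, fun _ => rfl, fun a => two_mul a⟩
  frob a r := by
    apply Prod.ext
    · exact (mul_assoc 2 a r.1).symm
    · exact (zero_mul r.2).symm

/-- The structure map. -/
noncomputable def str : Green.Hom constZ locZ where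
  top := Int.castRingHom (Z2 × ZMod 2)
  bot := Int.castRingHom Z2
  comm := by
    refine ⟨fun (r : ℤ) => (Prod.fst_intCast (α := Z2) (β := ZMod 2) r).symm,
      fun (a : ℤ) => ?_, fun _ => rfl⟩
    change (((2 * a : ℤ) : Z2 × ZMod 2)) = ((2 : Z2) * ((a : ℤ) : Z2), (0 : ZMod 2))
    apply Prod.ext
    · rw [Prod.fst_intCast]; push_cast; rfl
    · rw [Prod.snd_intCast]; push_cast
      rw [show (2 : ZMod 2) = 0 from rfl, zero_mul]

lemma prod_ext {A : Type} [CommRing A] {φ ψ : Z2 × ZMod 2 →+* A}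
    (h : ∀ c, φ (c, 0) = ψ (c, 0)) : φ = ψ := by
  have h5 : ((0 : Z2), (1 : ZMod 2)) = 1 - ((1 : Z2), (0 : ZMod 2)) := by
    apply Prod.ext
    · exact (sub_self (1 : Z2)).symm
    · exact (sub_zero (1 : ZMod 2)).symm
  have h4 : φ ((0 : Z2), (1 : ZMod 2)) = ψ ((0 : Z2), (1 : ZMod 2)) := by
    rw [h5, map_sub, map_sub, map_one, map_one, h]
  apply RingHom.ext
  rintro ⟨a, b⟩
  have h7 : (a, b) = (a, (0 : ZMod 2)) + ((0 : Z2), b) := by
    apply Prod.ext
    · exact (add_zero a).symm
    · exact (zero_add b).symm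
  have h8 : φ ((0 : Z2), b) = ψ ((0 : Z2), b) := by
    have hb' : ∀ b : ZMod 2, b = 0 ∨ b = 1 := by decide
    rcases hb' b with rfl | rfl
    · exact h 0
    · exact h4
  rw [h7, map_add, map_add, h, h8]

/-- The map from `ℤ[1/2] × 𝔽₂` given by a map `ρ` on `ℤ[1/2]` that is a ring homomorphism except that
it sends `1` to an idempotent `u` with `2 (1 - u) = 0`. -/
def prodHom {A : Type} [CommRing A] (ρ : Z2 →+ A) (hρ : ∀ a b, ρ (a * b) = ρ a * ρ b)
    (h2 : (2 : A) * (1 - ρ 1) = 0) : Z2 × ZMod 2 →+* A where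
  toFun x := ρ x.1 + x.2.val * (1 - ρ 1)
  map_one' := by
    change ρ 1 + ((1 : ZMod 2).val : A) * (1 - ρ 1) = 1
    rw [ZMod.val_one, Nat.cast_one, one_mul, add_sub_cancel]
  map_zero' := by
    change ρ 0 + ((0 : ZMod 2).val : A) * (1 - ρ 1) = 0
    rw [ZMod.val_zero, Nat.cast_zero, zero_mul, map_zero, add_zero]
  map_mul' x y := by
    obtain ⟨a, b⟩ := x
    obtain ⟨c, d⟩ := y
    change ρ (a * c) + ((b * d).val : A) * (1 - ρ 1) =
      (ρ a + (b.val : A) * (1 - ρ 1)) * (ρ c + (d.val : A) * (1 - ρ 1))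
    have e1 : ∀ a, ρ a * (1 - ρ 1) = 0 := fun a => by
      rw [mul_sub, mul_one, ← hρ, mul_one, sub_self]
    have e2 : (1 - ρ 1) * (1 - ρ 1) = 1 - ρ 1 := by
      have := e1 1
      calc (1 - ρ 1) * (1 - ρ 1) = (1 - ρ 1) - ρ 1 * (1 - ρ 1) := by ring
        _ = 1 - ρ 1 := by rw [this, sub_zero]
    have e3 : ((b * d).val : A) * (1 - ρ 1) = (b.val : A) * (d.val : A) * (1 - ρ 1) := by
      have hb' : ∀ b d : ZMod 2, (b * d).val = b.val * d.val := by decide
      rw [hb']; push_cast; ring
    rw [hρ, e3]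
    have e4 := e1 a
    have e5 := e1 c
    linear_combination (-(d.val : A)) * e4 - (b.val : A) * e5 - (b.val : A) * (d.val : A) * e2
  map_add' x y := by
    obtain ⟨a, b⟩ := x
    obtain ⟨c, d⟩ := y
    change ρ (a + c) + ((b + d).val : A) * (1 - ρ 1) =
      (ρ a + (b.val : A) * (1 - ρ 1)) + (ρ c + (d.val : A) * (1 - ρ 1))
    have hb' : ∀ b d : ZMod 2, b.val + d.val = (b + d).val ∨ b.val + d.val = (b + d).val + 2 := by
      decide
    rw [map_add]
    rcases hb' b d with h | h
    · have h' : (b.val : A) + (d.val : A) = ((b + d).val : A) := by rw [← Nat.cast_add, h]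
      linear_combination (-(1 - ρ 1)) * h'
    · have h' : (b.val : A) + (d.val : A) = ((b + d).val : A) + 2 := by
        rw [← Nat.cast_add, h, Nat.cast_add, Nat.cast_ofNat]
      linear_combination (-(1 - ρ 1)) * h' - h2

lemma z2_ext {A : Type} [CommRing A] (φ ψ : Z2 →+* A) : φ = ψ :=
  IsLocalization.ringHom_ext (Submonoid.powers (2 : ℤ)) (RingHom.ext_int _ _)

theorem isLocalization : IsLocalizationAt (2 : ℤ) str := by
  constructor
  · refine IsUnit.of_mul_eq_one hf ?_
    change (((2 : ℤ) : Z2)) * hf = 1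
    rw [Int.cast_ofNat]
    exact two_hf
  · intro T g hb
    let gb : ℤ →+* T.bot := g.bot
    let gt : ℤ →+* T.top := g.top
    have hb' : IsUnit (gb (2 : ℤ)) := hb
    let ψ : Z2 →+* T.bot := IsLocalization.Away.lift (2 : ℤ) hb'
    have hw : ∀ c, T.w (ψ c) = ψ c := fun c => by
      have h : T.w.comp ψ = ψ := z2_ext _ _
      exact congrArg (fun k : Z2 →+* T.bot => k c) h
    let ρ : Z2 →+ T.top := (T.tr.comp ψ.toAddMonoidHom).comp (AddMonoidHom.mulLeft hf)
    have hρ0 : ∀ c, ρ c = T.tr (ψ (hf * c)) := fun c => rfl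
    have hres : ∀ c, T.res (ρ c) = ψ c := by
      intro c
      rw [hρ0]
      have h1 : T.res (T.tr (ψ (hf * c))) = ψ (hf * c) + T.w (ψ (hf * c)) := T.mackey.2.2.2 _
      rw [h1, hw, ← two_mul]
      have h2 : (2 : T.bot) = ψ 2 := (map_ofNat ψ 2).symm
      rw [h2, ← map_mul, ← mul_assoc, two_hf, one_mul]
    have hmul : ∀ a b, ρ (a * b) = ρ a * ρ b := by
      intro a b
      rw [hρ0 a, ← T.frob, hres, ← map_mul, hρ0, mul_assoc]
    have htr : ∀ a, ρ (2 * a) = T.tr (ψ a) := by
      intro a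
      rw [hρ0, ← mul_assoc, mul_comm hf 2, two_hf, one_mul]
    have h21 : (2 : T.top) * (1 - ρ 1) = 0 := by
      have h1 : (2 : T.top) * ρ 1 = T.tr 1 := by
        rw [two_mul, ← map_add, ← two_mul, htr, map_one]
      have h2 : T.tr 1 = (2 : T.top) := by
        have h3 := g.comm.2.1 (1 : ℤ)
        have h4 : gt (2 * 1 : ℤ) = T.tr (gb 1) := h3
        rw [map_one, mul_one, map_ofNat] at h4
        exact h4.symm
      rw [mul_sub, mul_one, h1, h2, sub_self]
    let φ : Z2 × ZMod 2 →+* T.top := prodHom ρ hmul h21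
    have hφ : ∀ x, φ x = ρ x.1 + x.2.val * (1 - ρ 1) := fun x => rfl
    refine ⟨⟨φ, ψ, ⟨?_, ?_, ?_⟩⟩, ?_, ?_⟩
    · intro (x : Z2 × ZMod 2)
      change ψ x.1 = T.res (φ x)
      rw [hφ, map_add, map_mul, map_sub, hres, hres, map_one, map_one, sub_self, mul_zero, add_zero]
    · intro (a : Z2)
      change φ ((2 : Z2) * a, (0 : ZMod 2)) = T.tr (ψ a)
      rw [hφ]
      change ρ (2 * a) + ((0 : ZMod 2).val : T.top) * (1 - ρ 1) = _
      rw [ZMod.val_zero, Nat.cast_zero, zero_mul, add_zero, htr]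
    · intro a
      exact (hw a).symm
    · apply Green.Hom.ext
      · exact RingHom.ext_int (R := T.top) _ _
      · exact RingHom.ext_int (R := T.bot) _ _
    · intro h' hh'
      have e1 : (h'.bot : Z2 →+* T.bot) = ψ := z2_ext _ _
      apply Green.Hom.ext
      · refine prod_ext (A := T.top) ?_
        intro c
        have h2 : h'.top ((2 : Z2) * (hf * c), (0 : ZMod 2)) = T.tr (h'.bot (hf * c)) :=
          h'.comm.2.1 (hf * c)
        rw [← mul_assoc, two_hf, one_mul] at h2
        change h'.top (c, (0 : ZMod 2)) = φ (c, 0)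
        rw [h2, hφ]
        change T.tr (h'.bot (hf * c)) = ρ c + ((0 : ZMod 2).val : T.top) * (1 - ρ 1)
        rw [ZMod.val_zero, Nat.cast_zero, zero_mul, add_zero, hρ0, ← e1]
        rfl
      · exact e1

/-! ### The modules -/

/-- The zero module. -/
def zero : Mod constZ where
  top := PUnit
  bot := PUnit
  modTop := (inferInstance : Module ℤ PUnit)
  modBot := (inferInstance : Module ℤ PUnit)
  res := 0
  tr := 0
  w := 0
  mackey := ⟨fun _ => rfl, fun _ => rfl, fun _ => rfl, fun _ => rfl⟩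
  compat := ⟨fun _ _ => rfl, fun _ _ => rfl, fun _ _ => rfl, fun _ _ => rfl⟩

lemma aux (a : ℤ) (m : ZMod 2) : (0 : ZMod 2) = (2 * a) • m := by
  rw [mul_comm, mul_smul, two_smul, CharTwo.add_self_eq_zero, smul_zero]

/-- `𝔽₂` at both levels, with restriction `0` and transfer the identity. -/
def N : Mod constZ where
  top := ZMod 2
  bot := ZMod 2
  modTop := (inferInstance : Module ℤ (ZMod 2))
  modBot := (inferInstance : Module ℤ (ZMod 2))
  res := 0
  tr := AddMonoidHom.id _
  w := AddMonoidHom.id _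
  mackey := ⟨fun _ => rfl, fun _ => rfl, fun _ => rfl,
    fun (a : ZMod 2) => (CharTwo.add_self_eq_zero a).symm⟩
  compat := ⟨fun (r : ℤ) _ => (smul_zero r).symm, fun _ _ => rfl, fun _ _ => rfl,
    fun (a : ℤ) (m : ZMod 2) => (smul_zero a).trans (aux a m)⟩

/-- `𝔽₂` at the top level. -/
def N' : Mod constZ where
  top := ZMod 2
  bot := PUnit
  modTop := (inferInstance : Module ℤ (ZMod 2))
  modBot := (inferInstance : Module ℤ PUnit)
  res := 0
  tr := 0
  w := 0
  mackey := ⟨fun _ => rfl, fun _ => rfl, fun _ => rfl, fun _ => rfl⟩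
  compat := ⟨fun _ _ => rfl, fun _ _ => rfl, fun (r : ℤ) _ => (smul_zero r).symm,
    fun (a : ℤ) (m : ZMod 2) => aux a m⟩

/-- `𝔽₂` at the bottom level. -/
def N'' : Mod constZ where
  top := PUnit
  bot := ZMod 2
  modTop := (inferInstance : Module ℤ PUnit)
  modBot := (inferInstance : Module ℤ (ZMod 2))
  res := 0
  tr := 0
  w := AddMonoidHom.id _
  mackey := ⟨fun _ => rfl, fun _ => rfl, fun _ => rfl,
    fun (a : ZMod 2) => (CharTwo.add_self_eq_zero a).symm⟩
  compat := ⟨fun (r : ℤ) _ => (smul_zero r).symm, fun _ _ => rfl, fun _ _ => rfl, fun _ _ => rfl⟩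

/-- The inclusion `N' → N`. -/
def i : Mod.Hom N' N where
  top := (LinearMap.id : ZMod 2 →ₗ[ℤ] ZMod 2)
  bot := (0 : PUnit →ₗ[ℤ] ZMod 2)
  comm := ⟨fun _ => rfl, fun _ => rfl, fun _ => rfl⟩

/-- The projection `N → N''`. -/
def q : Mod.Hom N N'' where
  top := (0 : ZMod 2 →ₗ[ℤ] PUnit)
  bot := (LinearMap.id : ZMod 2 →ₗ[ℤ] ZMod 2)
  comm := ⟨fun _ => rfl, fun _ => rfl, fun _ => rfl⟩

lemma shortExact : ShortExact i q := by
  refine ⟨⟨fun _ _ h => h, fun y => ⟨fun _ => ⟨y, rfl⟩, fun _ => rfl⟩, fun _ => ⟨(0 : ZMod 2), rfl⟩⟩,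
    ⟨fun _ _ _ => rfl, fun (y : ZMod 2) => ⟨fun h => ⟨PUnit.unit, ?_⟩, ?_⟩, fun y => ⟨y, rfl⟩⟩⟩
  · have h' : y = 0 := h
    exact h'.symm
  · rintro ⟨_, h⟩
    exact h.symm

/-- The localization as a module over the constant Green functor. -/
noncomputable abbrev S : Mod constZ := str.toMod

lemma bilin_zero {U A B C : Type} [CommRing U] [AddCommGroup A] [AddCommGroup B] [AddCommGroup C]
    [Module U A] [Module U B] [Module U C] {f : A → B → C} (h : Bilin U f) (a : A) : f a 0 = 0 := by
  have h1 := h.2.1 a 0 0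
  rw [add_zero] at h1
  exact left_eq_add.1 h1

/-- The pairing `S × N' → N'`. -/
noncomputable def β' : Pairing S N' N' where
  top := fun (s : Z2 × ZMod 2) (n : ZMod 2) => (s.2 * n : ZMod 2)
  bot := fun _ _ => PUnit.unit
  bilin_top := by
    refine ⟨fun (s t : Z2 × ZMod 2) (n : ZMod 2) => add_mul s.2 t.2 n,
      fun (s : Z2 × ZMod 2) (x y : ZMod 2) => mul_add s.2 x y,
      fun (r : ℤ) (s : Z2 × ZMod 2) (n : ZMod 2) => ?_,
      fun (r : ℤ) (s : Z2 × ZMod 2) (x : ZMod 2) => ?_⟩
    · change ((r : Z2 × ZMod 2) * s).2 * n = r • (s.2 * n)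
      rw [Prod.snd_mul, Prod.snd_intCast, zsmul_eq_mul]; ring
    · change s.2 * (r • x) = r • (s.2 * x)
      rw [zsmul_eq_mul, zsmul_eq_mul]; ring
  bilin_bot := ⟨fun _ _ _ => rfl, fun _ _ _ => rfl, fun _ _ _ => rfl, fun _ _ _ => rfl⟩
  compat := ⟨fun _ _ => rfl, fun _ _ => rfl, fun (a : Z2) (n : ZMod 2) => (zero_mul n).symm,
    fun (m : Z2 × ZMod 2) _ => (mul_zero m.2).symm⟩

/-- The zero pairing `S × M → 0`. -/
noncomputable def zp (M : Mod constZ) : Pairing S M zero where
  top := fun _ _ => PUnit.unit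
  bot := fun _ _ => PUnit.unit
  bilin_top := ⟨fun _ _ _ => rfl, fun _ _ _ => rfl, fun _ _ _ => rfl, fun _ _ _ => rfl⟩
  bilin_bot := ⟨fun _ _ _ => rfl, fun _ _ _ => rfl, fun _ _ _ => rfl, fun _ _ _ => rfl⟩
  compat := ⟨fun _ _ => rfl, fun _ _ => rfl, fun _ _ => rfl, fun _ _ => rfl⟩

/-- The zero map out of the zero module. -/
def zeroHom (P : Mod constZ) : Mod.Hom zero P where
  top := 0
  bot := 0
  comm := ⟨fun _ => (map_zero P.res).symm, fun _ => (map_zero P.tr).symm,
    fun _ => (map_zero P.w).symm⟩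

lemma isBox_zp (M : Mod constZ)
    (hM : ∀ (P : Mod constZ) (γ : Pairing S M P),
      (∀ m n, γ.top m n = 0) ∧ ∀ a b, γ.bot a b = 0) : IsBox (zp M) := by
  intro P γ
  obtain ⟨h1, h2⟩ := hM P γ
  refine ⟨zeroHom P, ⟨fun m n => (h1 m n).symm, fun a b => (h2 a b).symm⟩, ?_⟩
  intro h' _
  apply Mod.Hom.ext
  · apply LinearMap.ext
    intro x
    exact map_zero h'.top
  · apply LinearMap.ext
    intro x
    exact map_zero h'.bot

lemma exists_half (a : S.bot) : ∃ x : S.bot, a = x + x := by
  let a' : Z2 := a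
  refine ⟨(hf * a' : Z2), ?_⟩
  change a' = hf * a' + hf * a'
  rw [← add_mul, ← two_mul, two_hf, one_mul]

lemma bot_zero {M P : Mod constZ} (γ : Pairing S M P) (hM : ∀ b : M.bot, b + b = 0) (a : S.bot)
    (b : M.bot) : γ.bot a b = 0 := by
  obtain ⟨x, rfl⟩ := exists_half a
  rw [γ.bilin_bot.1, ← γ.bilin_bot.2.1, hM, bilin_zero γ.bilin_bot]

lemma isBox_N : IsBox (zp N) := by
  apply isBox_zp
  intro P γ
  have h1 := bot_zero γ (fun (b : ZMod 2) => CharTwo.add_self_eq_zero b)
  refine ⟨fun m n => ?_, h1⟩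
  have h2 : P.tr (γ.bot (S.res m) (show N.bot from n)) = γ.top m n := γ.compat.2.2.2 m n
  rw [← h2, h1 (S.res m) (show N.bot from n), map_zero]

lemma isBox_N'' : IsBox (zp N'') := by
  apply isBox_zp
  intro P γ
  have h1 := bot_zero γ (fun (b : ZMod 2) => CharTwo.add_self_eq_zero b)
  exact ⟨fun m n => bilin_zero γ.bilin_top m, h1⟩

lemma isBox_N' : IsBox β' := by
  intro P γ
  let e : S.top := (show Z2 × ZMod 2 from (0, 1))
  have hb : ∀ a (b : N'.bot), γ.bot a b = 0 := fun a b => bilin_zero γ.bilin_bot a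
  have hc : ∀ (c : Z2) (n : N'.top), γ.top (show S.top from (show Z2 × ZMod 2 from (c, 0))) n = 0 := by
    intro c n
    have h1 := γ.compat.2.2.1 (show S.bot from (hf * c : Z2)) n
    rw [hb, map_zero] at h1
    have h2 : S.tr (show S.bot from (hf * c : Z2)) =
        (show S.top from (show Z2 × ZMod 2 from (c, 0))) := by
      change ((2 : Z2) * (hf * c), (0 : ZMod 2)) = (c, 0)
      rw [← mul_assoc, two_hf, one_mul]
    rw [h2] at h1
    exact h1.symm
  refine ⟨⟨⟨⟨γ.top e, γ.bilin_top.2.1 e⟩, fun r n => γ.bilin_top.2.2.2 r e n⟩, 0, ⟨?_, ?_, ?_⟩⟩,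
    ⟨?_, ?_⟩, ?_⟩
  · intro m
    change 0 = P.res (γ.top e m)
    rw [γ.compat.1, hb]
  · intro a
    change γ.top e (N'.tr a) = P.tr 0
    rw [map_zero]
    exact bilin_zero γ.bilin_top e
  · intro a
    exact (map_zero P.w).symm
  · rintro s n
    change γ.top e ((show ZMod 2 from (show Z2 × ZMod 2 from s).2 * (show ZMod 2 from n))) = γ.top s n
    obtain ⟨a, b⟩ : Z2 × ZMod 2 := s
    have h1 : (show S.top from (show Z2 × ZMod 2 from (a, b))) =
        (show S.top from (show Z2 × ZMod 2 from (a, 0))) +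
        (show S.top from (show Z2 × ZMod 2 from (0, b))) := by
      apply Prod.ext
      · exact (add_zero a).symm
      · exact (zero_add b).symm
    have h2 : γ.top (show S.top from (show Z2 × ZMod 2 from (a, b))) n =
        γ.top (show S.top from (show Z2 × ZMod 2 from (0, b))) n := by
      rw [h1, γ.bilin_top.1, hc, zero_add]
    refine Eq.trans ?_ h2.symm
    have hb' : ∀ b : ZMod 2, b = 0 ∨ b = 1 := by decide
    rcases hb' b with rfl | rfl
    · rw [hc]
      have h3 : (show ZMod 2 from (0 : ZMod 2) * (show ZMod 2 from n)) = 0 := zero_mul _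
      change γ.top e (show ZMod 2 from (0 : ZMod 2) * (show ZMod 2 from n)) = 0
      rw [h3]
      exact bilin_zero γ.bilin_top e
    · have h3 : (show ZMod 2 from (1 : ZMod 2) * (show ZMod 2 from n)) = (show ZMod 2 from n) :=
        one_mul _
      change γ.top e (show ZMod 2 from (1 : ZMod 2) * (show ZMod 2 from n)) = γ.top e n
      rw [h3]
  · intro a b
    rw [hb]
    rfl
  · rintro h' ⟨h1, _⟩
    apply Mod.Hom.ext
    · apply LinearMap.ext
      intro n
      have h2 := h1 e n
      have h3 : β'.top e n = n := one_mul (show ZMod 2 from n)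
      rw [h3] at h2
      exact h2
    · apply LinearMap.ext
      intro x
      exact map_zero h'.bot

theorem not_flat : ¬ Flat S := by
  intro h
  have h1 := h N' N N'' i q shortExact N' zero zero β' (zp N) (zp N'') isBox_N' isBox_N isBox_N''
    ⟨(0 : ZMod 2 →ₗ[ℤ] PUnit), (0 : PUnit →ₗ[ℤ] PUnit), ⟨fun _ => rfl, fun _ => rfl, fun _ => rfl⟩⟩
    (zeroHom zero) ⟨fun _ _ => rfl, fun _ _ => rfl⟩ ⟨fun _ _ => rfl, fun _ _ => rfl⟩
  have h2 : (0 : ZMod 2) = 1 := h1.1.1 rfl
  exact absurd h2 (by decide)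

/-- There are a commutative Green functor `R` for the group `C₂`, an element `b` of its value at
`C₂/e` and a localization `R → R[b⁻¹]` that is not flat. Here `R` is the constant Green functor `ℤ`
and `b = 2`. -/
theorem result : ∃ (R' : Green) (f : Green.Hom constZ R'),
    IsLocalizationAt (R := constZ) (2 : ℤ) f ∧ ¬ Flat f.toMod :=
  ⟨locZ, str, isLocalization, not_flat⟩

end Pool.Agent.Results.MP_196a0c_al.NotFlat
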